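import Pool.Agent.Q213.Wgt
import Pool.Agent.Helper330.DPF.P_holds
import Pool.Agent.Helper330.DPF.P_omegaOne
import Pool.Agent.Helper330.DPF.P_existsDec
import Pool.Agent.Helper330.DPF.P_botCond
import Pool.Agent.Helper330.DPK.P_dpKF
import Pool.Agent.Helper330.DPK.Coh

/-!
# The minimal weight of an ω-bounded abelian group which is not projectively weight-small

The cardinal `sigma` is characterized by families of Kurepa type.
-/

set_option autoImplicit false

open Set Topology Filter
open Cardinal hiding univ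

namespace Pool.Agent.Results.MP_14431a_gt.KurepaFamilies

open Pool.Agent.Q213.Wgt
open Order (succ)

/-- `w(X) ≤ |X|`. -/
def WeightSmall (X : Type) [TopologicalSpace X] : Prop := weight X ≤ #X

/-- Every Hausdorff topological group which is the image of `G` under a continuous surjective
homomorphism is weight-small. -/
def ProjectivelyWeightSmall (G : Type) [AddGroup G] [TopologicalSpace G] : Prop :=
  ∀ (H : Type) [AddGroup H] [TopologicalSpace H] [IsTopologicalAddGroup H] [T2Space H]
    (f : G →+ H), Continuous f → Function.Surjective f → WeightSmall H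

/-- The weights of the `ω`-bounded Hausdorff abelian groups which are not projectively
weight-small. -/
def badWeights : Set Cardinal.{0} :=
  {κ | ∃ (G : Type) (_ : AddCommGroup G) (_ : TopologicalSpace G),
    IsTopologicalAddGroup G ∧ T2Space G ∧ OmegaBounded G ∧ weight G = κ ∧
      ¬ ProjectivelyWeightSmall G}

/-- The least weight of an `ω`-bounded abelian group which is not projectively weight-small. -/
noncomputable def sigma : Cardinal.{0} := sInf badWeights

/-- On some set of size continuum there is a family of `𝔠⁺` subsets such that for every countable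
`s` the number `μ` of the traces on `s` of the members of the family satisfies `2 ^ μ ≤ 𝔠`. -/
def SmallTraces : Prop :=
  ∃ (X : Type) (A : Set (Set X)), #X = 𝔠 ∧ #A = succ 𝔠 ∧
    ∀ s : Set X, s.Countable → (2 : Cardinal) ^ #((fun a => a ∩ s) '' A) ≤ 𝔠

/-- The well-ordered set `ω₁`. -/
abbrev W1 : Type := Pool.Agent.Helper330.DPK.W1

/-- A Kurepa family: at least `ℵ₂` subsets of `ω₁` with only countably many traces on every
countable ordinal. -/
def KurepaFamily : Prop :=
  ∃ A : Set (Set W1), ℵ_ 2 ≤ #A ∧ ∀ a : W1, ((fun b => b ∩ Iio a) '' A).Countable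

/-! ### The construction -/

section Construction

variable {X : Type} (A : Set (Set X))

open Classical in
/-- The evaluation at `x`. -/
noncomputable def e (x : X) : A → ZMod 2 := fun a => if x ∈ (a : Set X) then 1 else 0

/-- The compact group given by the set `s`. -/
noncomputable def K (s : Set X) : AddSubgroup (A → ZMod 2) :=
  (AddSubgroup.closure (e A '' s)).topologicalClosure

theorem K_mono {s t : Set X} (h : s ⊆ t) : K A s ≤ K A t :=
  AddSubgroup.topologicalClosure_mono (AddSubgroup.closure_mono (image_mono h))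

/-- The `ω`-bounded group. -/
noncomputable def H : AddSubgroup (A → ZMod 2) where
  carrier := {φ | ∃ s : Set X, s.Countable ∧ φ ∈ K A s}
  zero_mem' := ⟨∅, countable_empty, (K A ∅).zero_mem⟩
  add_mem' := by
    rintro φ ψ ⟨s, hs, hφ⟩ ⟨t, ht, hψ⟩
    exact ⟨s ∪ t, hs.union ht, (K A _).add_mem (K_mono A subset_union_left hφ)
      (K_mono A subset_union_right hψ)⟩
  neg_mem' := by
    rintro φ ⟨s, hs, hφ⟩
    exact ⟨s, hs, (K A _).neg_mem hφ⟩

theorem mem_H {φ : A → ZMod 2} : φ ∈ H A ↔ ∃ s : Set X, s.Countable ∧ φ ∈ K A s := Iff.rfl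

theorem e_mem (x : X) : e A x ∈ H A :=
  ⟨{x}, countable_singleton x, AddSubgroup.le_topologicalClosure _
    (AddSubgroup.subset_closure ⟨x, rfl, rfl⟩)⟩

theorem omegaBounded_H : OmegaBounded (H A) := by
  intro B hB
  choose s hs hsK using fun b : H A => (mem_H A).1 b.2
  let t : Set X := ⋃ b ∈ B, s b
  have ht : t.Countable := hB.biUnion fun b _ => hs b
  have hBt : ∀ b ∈ B, (b : A → ZMod 2) ∈ K A t := fun b hb =>
    K_mono A (subset_biUnion_of_mem hb) (hsK b)
  have hKc : IsCompact (K A t : Set (A → ZMod 2)) :=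
    (AddSubgroup.isClosed_topologicalClosure _).isCompact
  have hK' : IsCompact (Subtype.val ⁻¹' (K A t : Set (A → ZMod 2)) : Set (H A)) := by
    rw [IsInducing.subtypeVal.isCompact_preimage_iff (by
      rw [Subtype.range_coe]
      exact fun φ hφ => ⟨t, ht, hφ⟩)]
    exact hKc
  refine hK'.of_isClosed_subset isClosed_closure (closure_minimal hBt hK'.isClosed)

/-- Members of `K s` depend only on the trace on `s`. -/
theorem K_dep {s : Set X} {φ : A → ZMod 2} (hφ : φ ∈ K A s) {a b : A}
    (hab : (a : Set X) ∩ s = (b : Set X) ∩ s) : φ a = φ b := by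
  classical
  have hclosed : IsClosed {ψ : A → ZMod 2 | ψ a = ψ b} :=
    isClosed_eq (continuous_apply a) (continuous_apply b)
  have h1 : ((AddSubgroup.closure (e A '' s) : AddSubgroup (A → ZMod 2)) : Set (A → ZMod 2)) ⊆
      {ψ : A → ZMod 2 | ψ a = ψ b} := by
    intro ψ hψ
    induction hψ using AddSubgroup.closure_induction with
    | mem ψ hψ =>
      obtain ⟨x, hx, rfl⟩ := hψ
      have h2 : x ∈ (a : Set X) ↔ x ∈ (b : Set X) := by
        have h3 : x ∈ (a : Set X) ∩ s ↔ x ∈ (b : Set X) ∩ s := by rw [hab]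
        simpa [hx] using h3
      show (if x ∈ (a : Set X) then (1 : ZMod 2) else 0) = if x ∈ (b : Set X) then 1 else 0
      by_cases hb : x ∈ (b : Set X)
      · rw [if_pos hb, if_pos (h2.2 hb)]
      · rw [if_neg hb, if_neg fun h => hb (h2.1 h)]
    | zero => rfl
    | add ψ ψ' _ _ h h' =>
      show ψ a + ψ' a = ψ b + ψ' b
      rw [show ψ a = ψ b from h, show ψ' a = ψ' b from h']
    | neg ψ _ h =>
      show -ψ a = -ψ b
      rw [show ψ a = ψ b from h]
  exact closure_minimal h1 hclosed hφ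

theorem mk_K_le (s : Set X) :
    #(K A s) ≤ (2 : Cardinal) ^ #((fun a => a ∩ s) '' A) := by
  classical
  choose c hc using fun τ : ((fun a => a ∩ s) '' A : Set (Set X)) => τ.2
  let f : K A s → (((fun a => a ∩ s) '' A : Set (Set X)) → ZMod 2) := fun φ τ =>
    φ.1 ⟨c τ, (hc τ).1⟩
  have hf : Function.Injective f := by
    intro φ ψ h
    apply Subtype.ext
    funext a
    let τ : ((fun a => a ∩ s) '' A : Set (Set X)) := ⟨a ∩ s, a, a.2, rfl⟩
    have h1 : (a : Set X) ∩ s = ((⟨c τ, (hc τ).1⟩ : A) : Set X) ∩ s := (hc τ).2.symm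
    rw [K_dep A φ.2 h1, K_dep A ψ.2 h1]
    exact congrFun h τ
  refine (mk_le_of_injective hf).trans ?_
  rw [← power_def]
  have : #(ZMod 2) = 2 := by simp
  rw [this]

theorem mk_H_le {lam : Cardinal.{0}} (h0 : ℵ₀ ≤ lam) (hX : #X ≤ lam) (hlam : lam ^ ℵ₀ = lam)
    (htr : ∀ s : Set X, s.Countable → (2 : Cardinal) ^ #((fun a => a ∩ s) '' A) ≤ lam) :
    #(H A) ≤ lam := by
  have hJ : #{s : Set X // #s ≤ ℵ₀} ≤ lam := by
    refine (mk_bounded_set_le X ℵ₀).trans ?_
    have h1 : max #X ℵ₀ ^ ℵ₀ ≤ lam ^ ℵ₀ := power_le_power_right (max_le hX h0)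
    exact h1.trans hlam.le
  have hK : ∀ s : {s : Set X // #s ≤ ℵ₀}, #(K A s.1) ≤ lam := fun s =>
    (mk_K_le A s.1).trans (htr s.1 (le_aleph0_iff_set_countable.1 s.2))
  have h1 : ∀ b : H A, ∃ s : {s : Set X // #s ≤ ℵ₀}, b.1 ∈ K A s.1 := by
    rintro ⟨φ, s, hs, hφ⟩
    exact ⟨⟨s, le_aleph0_iff_set_countable.2 hs⟩, hφ⟩
  choose s hs using h1
  let f : H A → Σ s : {s : Set X // #s ≤ ℵ₀}, K A s.1 := fun φ => ⟨s φ, ⟨φ.1, hs φ⟩⟩
  have hf : Function.Injective f := by
    intro φ ψ h
    apply Subtype.ext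
    exact congrArg (fun q : (Σ s : {s : Set X // #s ≤ ℵ₀}, K A s.1) => q.2.1) h
  have h2 : #(Σ s : {s : Set X // #s ≤ ℵ₀}, K A s.1) ≤ lam := by
    rw [mk_sigma]
    have h3 := sum_le_sum (fun s : {s : Set X // #s ≤ ℵ₀} => #(K A s.1)) (fun _ => lam) hK
    refine h3.trans ?_
    rw [sum_const, lift_id, lift_id]
    exact (mul_le_mul' hJ le_rfl).trans (mul_eq_self h0).le
  exact (mk_le_of_injective hf).trans h2

theorem le_weight_H {κ : Cardinal.{0}} (hκ : ℵ₀ ≤ κ) (h : weight (H A) ≤ κ) : #A ≤ κ := by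
  have h1 := mk_cont_chars_le (omegaBounded_H A).prec hκ h
  refine le_trans (mk_le_of_injective (f := fun a : A =>
    (⟨AddMonoidHom.mk' (fun φ : H A => (ZMod.toAddCircle (N := 2) (φ.1 a) : Tor)) (fun φ ψ => by
      simp), ?_⟩ : {χ : H A →+ Tor | Continuous χ})) ?_) h1
  · have h2 : Continuous fun φ : H A => φ.1 a := (continuous_apply a).comp continuous_subtype_val
    exact (continuous_of_discreteTopology
      (f := fun z : ZMod 2 => (ZMod.toAddCircle z : Tor))).comp h2
  · intro a b hab
    apply Subtype.ext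
    ext x
    have h2 : (ZMod.toAddCircle (N := 2) (e A x a) : Tor) = ZMod.toAddCircle (N := 2) (e A x b) :=
      DFunLike.congr_fun (congrArg Subtype.val hab) (⟨e A x, e_mem A x⟩ : H A)
    have h3 := ZMod.toAddCircle_injective 2 h2
    by_cases ha : x ∈ (a : Set X) <;> by_cases hb : x ∈ (b : Set X) <;> simp_all [e]

theorem mem_badWeights {lam κ : Cardinal.{0}} (h0 : ℵ₀ ≤ lam) (hX : #X ≤ lam)
    (hlam : lam ^ ℵ₀ = lam) (hA : #A = κ) (hk : lam < κ)
    (htr : ∀ s : Set X, s.Countable → (2 : Cardinal) ^ #((fun a => a ∩ s) '' A) ≤ lam) :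
    κ ∈ badWeights := by
  have hκ : ℵ₀ ≤ κ := h0.trans hk.le
  have hw1 : weight (H A) ≤ κ := (weight_subset _).trans (weight_pi κ hκ hA.le)
  have hw2 : κ ≤ weight (H A) := by
    by_contra! hlt
    have h1 : #A ≤ max (weight (H A)) ℵ₀ := le_weight_H A (le_max_right _ _) (le_max_left _ _)
    rw [hA] at h1
    exact absurd h1 (not_le.2 (max_lt hlt (h0.trans_lt hk)))
  refine ⟨H A, inferInstance, inferInstance, inferInstance, inferInstance, omegaBounded_H A,
    le_antisymm hw1 hw2, fun h => ?_⟩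
  have h1 : weight (H A) ≤ #(H A) := h (H A) (AddMonoidHom.id _) continuous_id fun x => ⟨x, rfl⟩
  exact absurd ((hw2.trans h1).trans (mk_H_le A h0 hX hlam htr)) (not_le.2 hk)

end Construction

/-! ### The bounds -/

theorem upper : succ ((2 : Cardinal) ^ 𝔠) ∈ badWeights := by
  have h1 : #(Set (Set (Set ℕ))) = (2 : Cardinal) ^ ((2 : Cardinal) ^ 𝔠) := by
    simp [mk_set]
  have h2 : succ ((2 : Cardinal) ^ 𝔠) ≤ #(Set (Set (Set ℕ))) := by
    rw [h1]
    exact Order.succ_le_of_lt (cantor _)
  obtain ⟨A, hA⟩ := le_mk_iff_exists_set.1 h2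
  have h0 : ℵ₀ ≤ (2 : Cardinal.{0}) ^ 𝔠 := aleph0_le_continuum.trans (cantor _).le
  refine mem_badWeights A (lam := (2 : Cardinal) ^ 𝔠) h0 (by simp [mk_set]) ?_ hA
    (Order.lt_succ _) ?_
  · rw [← power_mul, continuum_mul_aleph0]
  · intro s hs
    refine power_le_power_left two_ne_zero ?_
    have h3 : #((fun a => a ∩ s) '' A) ≤ #(Set s) := by
      refine (mk_le_mk_of_subset (t := 𝒫 s) ?_).trans (mk_powerset s).le |>.trans ?_
      · rintro _ ⟨a, -, rfl⟩
        exact inter_subset_right
      · rw [mk_set]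
    refine h3.trans ?_
    rw [mk_set, ← two_power_aleph0]
    exact power_le_power_left two_ne_zero ((le_aleph0_iff_set_countable).2 hs)

/-- The image of an `ω`-bounded group. -/
theorem OmegaBounded.image {G L : Type} [TopologicalSpace G] [TopologicalSpace L] [T2Space L]
    (hG : OmegaBounded G) (f : G → L) (hfc : Continuous f) (hf : Function.Surjective f) :
    OmegaBounded L := by
  intro s hs
  choose g hg using hf
  have h1 : IsCompact (f '' closure (g '' s)) := (hG _ (hs.image g)).image hfc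
  refine h1.of_isClosed_subset isClosed_closure (closure_minimal ?_ h1.isClosed)
  intro y hy
  exact ⟨g y, subset_closure ⟨y, hy, rfl⟩, hg y⟩

/-- The subgroup generated by a countable set is countable. -/
theorem countable_closure {L : Type} [AddCommGroup L] {s : Set L} (hs : s.Countable) :
    (AddSubgroup.closure s : Set L).Countable := by
  have : Countable s := hs.to_subtype
  let φ : (s →₀ ℤ) →+ L := Finsupp.liftAddHom fun x => zmultiplesHom _ (x : L)
  have h1 : AddSubgroup.closure s ≤ φ.range := by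
    rw [AddSubgroup.closure_le]
    intro x hx
    exact ⟨Finsupp.single ⟨x, hx⟩ 1, by simp [φ]⟩
  refine Set.Countable.mono h1 ?_
  rw [AddMonoidHom.coe_range]
  exact countable_range φ

/-- An infinite `ω`-bounded abelian group has at least continuum many elements. -/
theorem continuum_le_omegaBounded {L : Type} [AddCommGroup L] [TopologicalSpace L]
    [IsTopologicalAddGroup L] [T2Space L] [Infinite L] (hL : OmegaBounded L) : 𝔠 ≤ #L := by
  let x : ℕ ↪ L := Infinite.natEmbedding L
  let C : AddSubgroup L := (AddSubgroup.closure (range x)).topologicalClosure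
  have hcount : (AddSubgroup.closure (range x) : Set L).Countable :=
    countable_closure (countable_range x)
  have hC : IsCompact (C : Set L) := hL _ hcount
  have : CompactSpace C := isCompact_iff_compactSpace.1 hC
  have : Infinite C := Infinite.of_injective
    (fun n => (⟨x n, AddSubgroup.le_topologicalClosure _
      (AddSubgroup.subset_closure (mem_range_self n))⟩ : C))
    (fun m n h => x.injective (congrArg Subtype.val h))
  exact (continuum_le (C := C)).trans (mk_subtype_le _)

/-- From a group which is not projectively weight-small we get an `ω`-bounded abelian group `L`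
with `𝔠 ≤ |L| < w(L)`. -/
theorem exists_image {κ : Cardinal.{0}} (h : κ ∈ badWeights) :
    ∃ (L : Type) (_ : AddCommGroup L) (_ : TopologicalSpace L),
      IsTopologicalAddGroup L ∧ T2Space L ∧ OmegaBounded L ∧ 𝔠 ≤ #L ∧ #L < weight L ∧
        weight L ≤ max κ ℵ₀ := by
  obtain ⟨G, _, _, _, _, hG, hw, hps⟩ := h
  unfold ProjectivelyWeightSmall at hps
  push Not at hps
  obtain ⟨L, _, _, _, _, f, hfc, hf, hL⟩ := hps
  have hlt : #L < weight L := not_le.1 hL
  let _ : AddCommGroup L := { (inferInstance : AddGroup L) with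
    add_comm := by
      intro a b
      obtain ⟨a, rfl⟩ := hf a
      obtain ⟨b, rfl⟩ := hf b
      rw [← map_add, ← map_add, add_comm] }
  have hLb : OmegaBounded L := OmegaBounded.image hG f hfc hf
  have hinf : Infinite L := by
    by_contra hfin
    rw [not_infinite_iff_finite] at hfin
    exact absurd (weight_le_mk (X := L)) (not_le.2 hlt)
  refine ⟨L, inferInstance, inferInstance, inferInstance, inferInstance, hLb,
    continuum_le_omegaBounded hLb, hlt, ?_⟩
  exact weight_image hG.prec (le_max_right _ _) (hw.le.trans (le_max_left _ _)) f hfc hf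

theorem lower {κ : Cardinal.{0}} (h : κ ∈ badWeights) : succ 𝔠 ≤ κ := by
  obtain ⟨L, _, _, _, _, hL, h1, h2, h3⟩ := exists_image h
  have h4 : 𝔠 < max κ ℵ₀ := (h1.trans_lt h2).trans_le h3
  rcases lt_max_iff.1 h4 with h5 | h5
  · exact Order.succ_le_of_lt h5
  · exact absurd h5 (not_lt.2 aleph0_le_continuum)

theorem bounds : succ 𝔠 ≤ sigma ∧ sigma ≤ succ ((2 : Cardinal) ^ 𝔠) :=
  ⟨le_csInf ⟨_, upper⟩ fun _ hκ => lower hκ, csInf_le' upper⟩

/-! ### The characterization -/

/-- Countably many sets separating the points of the circle. -/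
theorem exists_sep : ∃ U : ℕ → Set Tor, ∀ x y, (∀ n, x ∈ U n ↔ y ∈ U n) → x = y := by
  obtain ⟨b, hbc, hbe, hb⟩ := TopologicalSpace.exists_countable_basis Tor
  have hne : b.Nonempty := by
    obtain ⟨V, hV, -, -⟩ := hb.exists_subset_of_mem_open (mem_univ (0 : Tor)) isOpen_univ
    exact ⟨V, hV⟩
  obtain ⟨U, rfl⟩ := hbc.exists_eq_range hne
  refine ⟨U, fun x y h => ?_⟩
  by_contra hxy
  obtain ⟨V, ⟨n, rfl⟩, hxV, hVy⟩ := hb.exists_subset_of_mem_open
    (show x ∈ ({y}ᶜ : Set Tor) from hxy) isOpen_compl_singleton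
  exact hVy ((h n).1 hxV) rfl

theorem smallTraces_of_sigma (h : sigma = succ 𝔠) : SmallTraces := by
  classical
  have hmem : succ 𝔠 ∈ badWeights := by
    rw [← h]
    exact csInf_mem ⟨_, upper⟩
  obtain ⟨L, _, _, _, _, hL, h1, h2, h3⟩ := exists_image hmem
  have hκ : ℵ₀ ≤ succ (𝔠 : Cardinal.{0}) := aleph0_le_continuum.trans (Order.le_succ _)
  rw [max_eq_left hκ] at h3
  have hcard : #L = 𝔠 := le_antisymm (Order.lt_succ_iff.1 (h2.trans_le h3)) h1
  let A := {χ : L →+ Tor | Continuous χ}
  have hA : #A = succ 𝔠 := by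
    refine le_antisymm (mk_cont_chars_le hL.prec hκ h3) ?_
    by_contra! hlt
    have h4 : weight L ≤ 𝔠 := weight_le_chars hL.prec aleph0_le_continuum
      (Order.lt_succ_iff.1 hlt)
    rw [hcard] at h2
    exact absurd h4 (not_le.2 h2)
  obtain ⟨U, hU⟩ := exists_sep
  let F : A → Set (L × ℕ) := fun χ => {p | χ.1 p.1 ∈ U p.2}
  have hF : Function.Injective F := by
    intro χ ψ hχψ
    apply Subtype.ext
    refine AddMonoidHom.ext fun x => hU _ _ fun n => ?_
    have h4 : (x, n) ∈ F χ ↔ (x, n) ∈ F ψ := by rw [hχψ]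
    exact h4
  refine ⟨L × ℕ, range F, ?_, ?_, fun s hs => ?_⟩
  · rw [mk_prod, lift_id, lift_id, hcard, mk_nat, continuum_mul_aleph0]
  · rw [mk_range_eq F hF, hA]
  · let C : AddSubgroup L := (AddSubgroup.closure (Prod.fst '' s)).topologicalClosure
    have hcount : (AddSubgroup.closure (Prod.fst '' s) : Set L).Countable :=
      countable_closure (hs.image _)
    have hC : IsCompact (C : Set L) := hL _ hcount
    have : CompactSpace C := isCompact_iff_compactSpace.1 hC
    have hsC : ∀ p ∈ s, p.1 ∈ C := fun p hp => AddSubgroup.le_topologicalClosure _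
      (AddSubgroup.subset_closure ⟨p, hp, rfl⟩)
    let R : A → (C →+ Tor) := fun χ => χ.1.comp C.subtype
    have hR : ∀ ψ ∈ range R, Continuous ψ := by
      rintro _ ⟨χ, rfl⟩
      exact (show Continuous χ.1 from χ.2).comp continuous_subtype_val
    have htr : #((fun a => a ∩ s) '' range F) ≤ #(range R) := by
      have hsur : ∀ τ : ((fun a => a ∩ s) '' range F : Set (Set (L × ℕ))), ∃ χ : A,
          F χ ∩ s = τ := by
        rintro ⟨_, ⟨_, ⟨χ, rfl⟩, rfl⟩⟩
        exact ⟨χ, rfl⟩
      choose c hc using hsur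
      refine mk_le_of_injective (f := fun τ => (⟨R (c τ), mem_range_self _⟩ : range R)) ?_
      intro τ τ' hττ'
      have h4 : R (c τ) = R (c τ') := congrArg Subtype.val hττ'
      apply Subtype.ext
      rw [← hc τ, ← hc τ']
      ext p
      constructor
      · rintro ⟨hp, hps⟩
        refine ⟨?_, hps⟩
        have h5 : (c τ).1 p.1 = (c τ').1 p.1 := DFunLike.congr_fun h4 (⟨p.1, hsC p hps⟩ : C)
        have h6 : (c τ).1 p.1 ∈ U p.2 := hp
        rw [h5] at h6
        exact h6
      · rintro ⟨hp, hps⟩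
        refine ⟨?_, hps⟩
        have h5 : (c τ).1 p.1 = (c τ').1 p.1 := DFunLike.congr_fun h4 (⟨p.1, hsC p hps⟩ : C)
        have h6 : (c τ').1 p.1 ∈ U p.2 := hp
        rw [← h5] at h6
        exact h6
    refine (power_le_power_left two_ne_zero htr).trans ?_
    rcases le_or_gt #(range R) ℵ₀ with h4 | h4
    · rw [← two_power_aleph0]
      exact power_le_power_left two_ne_zero h4
    · refine (two_power_le (range R) hR h4).trans ?_
      rw [← hcard]
      exact mk_subtype_le _

theorem sigma_of_smallTraces (h : SmallTraces) : sigma = succ 𝔠 := by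
  obtain ⟨X, A, hX, hA, htr⟩ := h
  exact le_antisymm (csInf_le' (mem_badWeights A aleph0_le_continuum hX.le continuum_power_aleph0
    hA (Order.lt_succ _) htr)) bounds.1

theorem sigma_iff : sigma = succ 𝔠 ↔ SmallTraces := ⟨smallTraces_of_sigma, sigma_of_smallTraces⟩

/-! ### Kurepa families -/

theorem mk_W1 : #W1 = ℵ₁ := by simp

theorem countable_Iio (a : W1) : (Iio a).Countable := by
  have h : #(Iio a) < #W1 := Cardinal.mk_Iio_lt a (by simp)
  rw [mk_W1] at h
  exact le_aleph0_iff_set_countable.1 (Cardinal.lt_aleph_one_iff.1 h)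

theorem not_countable_univ : ¬ (univ : Set W1).Countable := by
  rw [← le_aleph0_iff_set_countable, mk_univ, mk_W1, not_le]
  exact aleph0_lt_aleph_one

/-- Countable subsets of `ω₁` are bounded. -/
theorem exists_bound {s : Set W1} (hs : s.Countable) : ∃ b, ∀ a ∈ s, a < b := by
  by_contra! h
  refine not_countable_univ ((hs.biUnion fun a _ =>
    (countable_Iio a).union (countable_singleton a)).mono ?_)
  intro b _
  obtain ⟨a, ha, hba⟩ := h b
  refine mem_iUnion₂.2 ⟨a, ha, ?_⟩
  rcases hba.lt_or_eq with h | h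
  · exact Or.inl h
  · exact Or.inr h

theorem succ_aleph_one : succ (ℵ₁ : Cardinal.{0}) = ℵ_ 2 := by
  rw [succ_aleph]
  norm_num

/-- Families of Kurepa type on other sets. -/
theorem kurepaFamily_of {X : Type} (hX : #X = ℵ₁) (A : Set (Set X)) (hA : ℵ_ 2 ≤ #A)
    (htr : ∀ s : Set X, s.Countable → ((fun a => a ∩ s) '' A).Countable) : KurepaFamily := by
  have h1 : #X = #W1 := by rw [hX, mk_W1]
  obtain ⟨ε⟩ := Cardinal.eq.1 h1
  refine ⟨(fun a => ε '' a) '' A, ?_, fun a => ?_⟩
  · rw [mk_image_eq (image_injective.2 ε.injective)]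
    exact hA
  · have h2 : (fun b => b ∩ Iio a) '' ((fun a => ε '' a) '' A) =
        (fun b => ε '' b) '' ((fun b => b ∩ ε ⁻¹' Iio a) '' A) := by
      rw [image_image, image_image]
      refine image_congr fun b _ => ?_
      rw [image_inter_preimage]
    rw [h2]
    refine (htr _ ?_).image _
    exact (countable_Iio a).preimage_of_injOn ε.injective.injOn

theorem smallTraces_iff (hCH : (𝔠 : Cardinal.{0}) = ℵ₁) : SmallTraces ↔ KurepaFamily := by
  have h2 : succ (𝔠 : Cardinal.{0}) = ℵ_ 2 := by rw [hCH, succ_aleph_one]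
  constructor
  · rintro ⟨X, A, hX, hA, htr⟩
    refine kurepaFamily_of (hX.trans hCH) A (by rw [hA, h2]) fun s hs => ?_
    rw [← le_aleph0_iff_set_countable]
    by_contra! hlt
    have h3 : (𝔠 : Cardinal.{0}) ≤ #((fun a => a ∩ s) '' A) := by
      rw [hCH, ← succ_aleph0]
      exact Order.succ_le_of_lt hlt
    have h4 := (power_le_power_left two_ne_zero h3).trans (htr s hs)
    exact absurd h4 (not_le.2 (cantor _))
  · rintro ⟨A, hA, htr⟩
    obtain ⟨A', hA'⟩ := le_mk_iff_exists_set.1 hA
    refine ⟨W1, Subtype.val '' A', by rw [mk_W1, hCH], ?_, fun s hs => ?_⟩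
    · rw [mk_image_eq Subtype.val_injective, hA', h2]
    · obtain ⟨b, hb⟩ := exists_bound hs
      have h3 : ((fun a => a ∩ s) '' (Subtype.val '' A')).Countable := by
        refine ((htr b).image (fun c => c ∩ s)).mono ?_
        rintro _ ⟨_, ⟨a, ha, rfl⟩, rfl⟩
        refine ⟨a.1 ∩ Iio b, ⟨a.1, a.2, rfl⟩, ?_⟩
        ext x
        constructor
        · rintro ⟨⟨h4, -⟩, h5⟩
          exact ⟨h4, h5⟩
        · rintro ⟨h4, h5⟩
          exact ⟨⟨h4, hb x h5⟩, h5⟩
      refine (power_le_power_left two_ne_zero (le_aleph0_iff_set_countable.2 h3)).trans ?_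
      rw [two_power_aleph0]

open Pool.Agent.Helper330.DPK (DiamondPlus KF) in
theorem continuum_of_diamond (h : DiamondPlus) : (𝔠 : Cardinal.{0}) = ℵ₁ := by
  refine le_antisymm ?_ aleph_one_le_continuum
  obtain ⟨B, hB⟩ := h
  have hinf : Infinite W1 := by
    rw [infinite_iff, mk_W1]
    exact aleph0_le_aleph 1
  let x : ℕ ↪ W1 := Infinite.natEmbedding W1
  obtain ⟨b, hb⟩ := exists_bound (countable_range x)
  let f : W1 × ℕ → Set ℕ := fun q => {k | B q.1 q.2 (x k)}
  have hf : Function.Surjective f := by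
    intro Y
    obtain ⟨C, hC1, -, hC3⟩ := hB fun z => ∃ k ∈ Y, x k = z
    obtain ⟨a, hba, ha⟩ := hC1 b
    obtain ⟨⟨n, hn⟩, -⟩ := hC3 a ha
    refine ⟨(a, n), ?_⟩
    ext k
    have h1 := hn (x k) ((hb _ (mem_range_self k)).trans hba)
    show B a n (x k) ↔ k ∈ Y
    rw [← h1]
    constructor
    · rintro ⟨k', hk', he⟩
      rwa [← x.injective he]
    · intro hk
      exact ⟨k, hk, rfl⟩
  have h1 := mk_le_of_surjective hf
  rw [mk_set, mk_nat, two_power_aleph0, mk_prod, lift_id, lift_id, mk_W1, mk_nat] at h1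
  refine h1.trans ?_
  rw [aleph_mul_aleph0]

open Pool.Agent.Helper330.DPK (DiamondPlus KF) in
theorem kurepa_of_KF (hCH : (𝔠 : Cardinal.{0}) = ℵ₁) (h : KF) : KurepaFamily := by
  obtain ⟨S, hS, hcode⟩ := h
  -- the family is large
  have hbig : ℵ_ 2 ≤ #S := by
    by_contra! hlt
    rw [← succ_aleph_one] at hlt
    have h1 : #S ≤ 𝔠 := by
      rw [hCH]
      exact Order.lt_succ_iff.1 hlt
    choose b hbS hb using fun X : Set W1 => hcode fun x => x ∈ X
    have h2 : Function.Injective fun X : Set W1 => fun n => (⟨b X n, hbS X n⟩ : S) := by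
      intro X Y hXY
      have h3 : b X = b Y := by
        funext n
        exact congrArg Subtype.val (congrFun hXY n)
      have h4 : ∀ X Y : Set W1, b X = b Y → X ⊆ Y := by
        intro X Y h3 x hx
        by_contra hy
        have h5 := (hb X x).1 hx
        have h6 := (hb Y x).2 hy
        rw [h3] at h5
        omega
      exact subset_antisymm (h4 X Y h3) (h4 Y X h3.symm)
    have h3 := mk_le_of_injective h2
    rw [mk_set, mk_W1, ← power_def, mk_nat, ← hCH] at h3
    have h4 : #S ^ ℵ₀ ≤ 𝔠 := by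
      refine (power_le_power_right h1).trans ?_
      rw [continuum_power_aleph0]
    exact absurd (h3.trans h4) (not_le.2 (cantor _))
  -- graphs
  let F : S → Set (W1 × ℕ) := fun f => {p | f.1 p.1 = p.2}
  have hF : Function.Injective F := by
    intro f g hfg
    apply Subtype.ext
    funext x
    have h1 : (x, f.1 x) ∈ F f := rfl
    rw [hfg] at h1
    exact h1.symm
  refine kurepaFamily_of (X := W1 × ℕ) ?_ (range F) ?_ fun s hs => ?_
  · rw [mk_prod, lift_id, lift_id, mk_W1, mk_nat, aleph_mul_aleph0]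
  · rw [mk_range_eq F hF]
    exact hbig
  · obtain ⟨b, hb⟩ := exists_bound (hs.image Prod.fst)
    obtain ⟨c, hc⟩ := hS b
    -- the traces are determined by the codes
    have hex : ∀ τ : ((fun a => a ∩ s) '' range F : Set (Set (W1 × ℕ))), ∃ f : S,
        F f ∩ s = τ := by
      rintro ⟨_, ⟨_, ⟨f, rfl⟩, rfl⟩⟩
      exact ⟨f, rfl⟩
    choose g hg using hex
    have h1 : Function.Injective fun τ => c (g τ).1 := by
      intro τ τ' h
      have h2 := hc (g τ).1 (g τ).2 (g τ').1 (g τ').2 h
      apply Subtype.ext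
      rw [← hg τ, ← hg τ']
      ext p
      constructor
      · rintro ⟨hp, hps⟩
        refine ⟨?_, hps⟩
        show (g τ').1 p.1 = p.2
        rw [← h2 p.1 (hb _ ⟨p, hps, rfl⟩).le]
        exact hp
      · rintro ⟨hp, hps⟩
        refine ⟨?_, hps⟩
        show (g τ).1 p.1 = p.2
        rw [h2 p.1 (hb _ ⟨p, hps, rfl⟩).le]
        exact hp
    exact h1.countable

open Pool.Agent.Helper330.DPF in
/-- Let `sigma` be the least weight of an `ω`-bounded abelian group which is not projectively
weight-small. (1) `𝔠⁺ ≤ sigma ≤ (2 ^ 𝔠)⁺`. (2) `sigma = 𝔠⁺` if and only if there is a family of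
`𝔠⁺` subsets of a set of size `𝔠` with small traces. (3) Under the continuum hypothesis
`sigma = 𝔠⁺` if and only if there is a Kurepa family; (4) if moreover `2 ^ ℵ₁ = ℵ₂` then `sigma` is
`ℵ₂` or `ℵ₃`, according to whether there is a Kurepa family. (5) Some notion of forcing preserves
`ω₁` and forces the principle `DiamondPlus`, and (6) this principle implies `sigma = 𝔠⁺`. -/
theorem result :
    (succ 𝔠 ≤ sigma ∧ sigma ≤ succ ((2 : Cardinal) ^ 𝔠)) ∧
    (sigma = succ 𝔠 ↔ SmallTraces) ∧
    ((𝔠 : Cardinal.{0}) = ℵ₁ → (sigma = succ 𝔠 ↔ KurepaFamily)) ∧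
    ((𝔠 : Cardinal.{0}) = ℵ₁ → (2 : Cardinal.{0}) ^ ℵ₁ = ℵ_ 2 →
      (KurepaFamily → sigma = ℵ_ 2) ∧ (¬ KurepaFamily → sigma = ℵ_ 3)) ∧
    (∃ (P : Type) (_ : Preorder P), Nonempty P ∧ ∀ p : P,
      p ∈ OmegaOnePreserved P ∧ p ∈ DiamondPlusHolds P) ∧
    (DiamondPlus → sigma = succ 𝔠) := by
  refine ⟨bounds, sigma_iff, fun h => sigma_iff.trans (smallTraces_iff h), fun h h' => ⟨?_, ?_⟩,
    ?_, fun h => ?_⟩
  · intro hK
    rw [(sigma_iff.trans (smallTraces_iff h)).2 hK, h, succ_aleph_one]
  · intro hK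
    have h1 : sigma ≠ succ 𝔠 := fun h2 => hK ((sigma_iff.trans (smallTraces_iff h)).1 h2)
    have h2 : succ (ℵ_ 2 : Cardinal.{0}) = ℵ_ 3 := by
      rw [succ_aleph]
      norm_num
    refine le_antisymm ?_ ?_
    · refine bounds.2.trans ?_
      rw [h, h', h2]
    · have h3 : succ (𝔠 : Cardinal.{0}) < sigma := lt_of_le_of_ne bounds.1 h1.symm
      rw [h, succ_aleph_one] at h3
      rw [← h2]
      exact Order.succ_le_of_lt h3
  · obtain ⟨D, hD⟩ := existsDec
    exact ⟨PD D, inferInstance, botCond D, fun p => ⟨omegaOne p, holds hD p⟩⟩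
  · have hCH := continuum_of_diamond h
    exact (sigma_iff.trans (smallTraces_iff hCH)).2 (kurepa_of_KF hCH
      (Pool.Agent.Helper330.DPK.dpKF Pool.Agent.Helper330.DPK.Coh.cg
        Pool.Agent.Helper330.DPK.Coh.cg_fin Pool.Agent.Helper330.DPK.Coh.cg_coh h))

end Pool.Agent.Results.MP_14431a_gt.KurepaFamilies
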